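import Pool.Agent.H.MP_1e45a6.A

namespace Pool.Agent.H.MP_6d476a

open Set Filter Topology Function TopologicalSpace

variable {X : Type} (j : X → ℝ)

/-- Helly space along `j` -/
def H : Set (X → ℝ) := {h | (∀ x y, j x ≤ j y → h x ≤ h y) ∧ ∀ x, h x ∈ Icc (0 : ℝ) 1}

theorem H_closed : IsClosed (H j) := by
  simp only [H, ofPred_and, ofPred_forall]
  refine IsClosed.inter (isClosed_iInter fun x => isClosed_iInter fun y => isClosed_iInter fun _ =>
    isClosed_le (continuous_apply x) (continuous_apply y)) (isClosed_iInter fun x => ?_)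
  exact isClosed_Icc.preimage (continuous_apply (A := fun _ => ℝ) x)

theorem H_compact : IsCompact (H j) :=
  (isCompact_univ_pi fun _ : X => isCompact_Icc (a := (0 : ℝ)) (b := 1)).of_isClosed_subset
    (H_closed j) fun _ hh x _ => hh.2 x

theorem supp {K : Set (X → ℝ)} (hK : IsCompact K) {F : (X → ℝ) → ℝ} (hF : ContinuousOn F K)
    {e : ℝ} (he : 0 < e) : ∃ a : Finset X, ∀ h ∈ K, ∀ h' ∈ K, (∀ u ∈ a, h u = h' u) →
      |F h - F h'| < e := by
  have h1 := hK.uniformContinuousOn_of_continuous hF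
  have h2 := h1 (Metric.dist_mem_uniformity he)
  rw [mem_map, mem_inf_principal, Pi.uniformity, mem_iInf] at h2
  obtain ⟨I, hI, V, hV, e1⟩ := h2
  refine ⟨hI.toFinset, fun h hh h' hh' hu => ?_⟩
  have : (h, h') ∈ ⋂ i, V i := by
    refine mem_iInter.2 fun i => ?_
    obtain ⟨W, hW, h3⟩ := mem_comap.1 (hV i)
    refine h3 ?_
    show (h i, h' i) ∈ W
    rw [hu i (hI.mem_toFinset.2 i.2)]
    exact refl_mem_uniformity hW
  rw [← e1] at this
  exact this ⟨hh, hh'⟩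

theorem lc (hj : Injective j) (S : Set X) :
    {t | t ∈ S ∧ ∃ η > 0, {t' | t' ∈ S ∧ j t - η < j t' ∧ j t' < j t}.Countable}.Countable := by
  have key : ∀ q : ℚ, {t | t ∈ S ∧ (q : ℝ) < j t ∧
      {t' | t' ∈ S ∧ (q : ℝ) < j t' ∧ j t' < j t}.Countable}.Countable := by
    intro q
    set B := {t | t ∈ S ∧ (q : ℝ) < j t ∧ {t' | t' ∈ S ∧ (q : ℝ) < j t' ∧ j t' < j t}.Countable}
    obtain ⟨T, h1, h2, h3⟩ := isOpen_biUnion_countable B (fun t => Iio (j t)) fun _ _ => isOpen_Iio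
    have h4 : {t ∈ B | ∀ t' ∈ B, j t' ≤ j t}.Subsingleton := fun a ha b hb =>
      hj (le_antisymm (hb.2 a ha.1) (ha.2 b hb.1))
    refine ((h2.biUnion fun t ht => (h1 ht).2.2).union h4.countable).mono fun t ht => ?_
    by_cases h : ∀ t' ∈ B, j t' ≤ j t
    · exact Or.inr ⟨ht, h⟩
    · push Not at h
      obtain ⟨t', a1, a2⟩ := h
      have : j t ∈ ⋃ t ∈ B, Iio (j t) := mem_biUnion a1 a2
      rw [← h3] at this
      obtain ⟨s, b1, b2⟩ := mem_iUnion₂.1 this
      exact Or.inl (mem_biUnion b1 ⟨ht.1, ht.2.1, b2⟩)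
  refine (countable_iUnion key).mono ?_
  rintro t ⟨h1, η, h2, h3⟩
  obtain ⟨q, a1, a2⟩ := exists_rat_btwn (show j t - η < j t by linarith)
  exact mem_iUnion.2 ⟨q, h1, a2, h3.mono fun t' h => mem_ofPred.2 ⟨h.1, a1.trans h.2.1, h.2.2⟩⟩

theorem pick {φ : ℝ → ℝ} {l v e : ℝ} (hlv : l ≤ v) (hφ : ContinuousOn φ (Icc l v)) (he : 0 < e)
    (h : e < |φ v - φ l|) : ∃ q : ℚ, (q : ℝ) ∈ Icc l v ∧ φ q ≠ φ l ∧ e < |φ v - φ q| := by
  have hlt : l < v := lt_of_le_of_ne hlv fun e' => by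
    rw [e', sub_self, abs_zero] at h
    linarith
  have h0 : 0 < |φ v - φ l| := he.trans h
  let θ := (1 - e / |φ v - φ l|) / 2
  have h1 : e / |φ v - φ l| < 1 := (div_lt_one h0).2 h
  have h2 : 0 < e / |φ v - φ l| := div_pos he h0
  have t1 : 0 < θ := by simp only [θ]; linarith
  have t2 : θ < 1 := by simp only [θ]; linarith
  obtain ⟨s, hs, e1⟩ : φ l + θ * (φ v - φ l) ∈ φ '' uIcc l v := by
    refine intermediate_value_uIcc (by rwa [uIcc_of_le hlv]) ?_
    rcases le_total (φ l) (φ v) with a | a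
    · rw [uIcc_of_le a]
      constructor <;> nlinarith
    · rw [uIcc_of_ge a]
      constructor <;> nlinarith
  rw [uIcc_of_le hlv] at hs
  have hU : IsOpen {w | w ≠ φ l ∧ e < |φ v - w|} :=
    isOpen_ne.inter (isOpen_lt continuous_const (g := fun w => |φ v - w|) (by fun_prop))
  have hw : φ s ∈ {w | w ≠ φ l ∧ e < |φ v - w|} := by
    rw [e1]
    refine ⟨fun e2 => ?_, ?_⟩
    · have : θ * (φ v - φ l) = 0 := by linarith
      rcases mul_eq_zero.1 this with a | a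
      · exact t1.ne' a
      · rw [a, abs_zero] at h0
        exact lt_irrefl _ h0
    · rw [show φ v - (φ l + θ * (φ v - φ l)) = (1 - θ) * (φ v - φ l) by ring, abs_mul,
        abs_of_pos (by linarith)]
      have : e / |φ v - φ l| * |φ v - φ l| = e := div_mul_cancel₀ _ h0.ne'
      simp only [θ]
      nlinarith
  obtain ⟨O, o1, o2, o3⟩ := mem_nhdsWithin.1 (hφ s hs (hU.mem_nhds hw))
  have h3 : s ∈ closure (Ioo l v) := by rwa [closure_Ioo hlt.ne]
  obtain ⟨q, hq⟩ := Rat.denseRange_cast.exists_mem_open (o1.inter isOpen_Ioo)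
    (mem_closure_iff.1 h3 O o1 o2)
  exact ⟨q, Ioo_subset_Icc_self hq.2, o3 ⟨hq.1, Ioo_subset_Icc_self hq.2⟩⟩

variable {P : Type} [TopologicalSpace P] [SecondCountableTopology P] (p : X → P)
  (F : X → (X → ℝ) → ℝ)

/-- points whose functional is nearly determined by the constraints -/
def S1 (E : Finset X) (d : (E → ℚ) × Finset (ℚ × ℚ × ℚ) × ℚ × ℚ × ℚ) : Set X :=
  {t | ∀ h ∈ H j, (∀ u : E, h u = d.1 u) →
    (∀ c ∈ d.2.1, ∀ x, (c.1 : ℝ) < j x → j x < c.2.1 → h x = c.2.2) → h t = d.2.2.1 →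
      |F t h - d.2.2.2.1| < d.2.2.2.2}

/-- left condensation points of all countably many properties -/
def Good (E : Finset X) (t : X) : Prop :=
  ∀ d d', ∀ W ∈ countableBasis P, t ∈ S1 j F E d ∩ S1 j F E d' ∩ p ⁻¹' W → ∀ η > 0,
    ¬ {t' | t' ∈ S1 j F E d ∩ S1 j F E d' ∩ p ⁻¹' W ∧ j t - η < j t' ∧ j t' < j t}.Countable

theorem bad (hj : Injective j) (E : Finset X) : {t | ¬ Good j p F E t}.Countable := by
  refine (countable_iUnion fun d => countable_iUnion fun d' =>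
    (countable_countableBasis P).biUnion fun W _ =>
      lc j hj (S1 j F E d ∩ S1 j F E d' ∩ p ⁻¹' W)).mono fun t ht => ?_
  simp only [Good, mem_ofPred, not_forall, not_not] at ht
  obtain ⟨d, d', W, h1, h2, η, h3, h4⟩ := ht
  exact mem_iUnion.2 ⟨d, mem_iUnion.2 ⟨d', mem_biUnion h1 ⟨h2, η, h3, h4⟩⟩⟩

end Pool.Agent.H.MP_6d476a
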