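import Pool.Agent.H.MP_6d476a.A

namespace Pool.Agent.H.MP_6d476a

open Set Filter Topology Function TopologicalSpace Classical

variable {X : Type} (j : X → ℝ) {P : Type} [TopologicalSpace P] [SecondCountableTopology P]
  (p : X → P) (F : X → (X → ℝ) → ℝ) (a : X → ℕ → Finset X)

/-- a finite stage -/
structure St (X : Type) where
  E : Finset X
  g : X → ℝ
  l : X → ℝ
  eps : X → ℝ
  E0 : X → Finset X

/-- invariants -/
structure Inv (σ : St X) : Prop where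
  ne : σ.E.Nonempty
  mem : σ.g ∈ H j
  rat : ∀ x, ∃ q : ℚ, σ.g x = q
  ratl : ∀ t ∈ σ.E, ∃ q : ℚ, σ.l t = q
  lc : ∀ u ∉ σ.E, ∃ η > 0, ∀ x, |j x - j u| < η → σ.g x = σ.g u
  left : ∀ t ∈ σ.E, ∃ η > 0, ∀ x, j t - η < j x → j x < j t → σ.g x = σ.l t
  le : ∀ t ∈ σ.E, (∀ x, j x < j t → σ.g x ≤ σ.l t) ∧ 0 ≤ σ.l t ∧ σ.l t ≤ σ.g t
  gap : ∀ t ∈ σ.E, 0 < σ.eps t ∧ σ.eps t < |F t σ.g - F t (update σ.g t (σ.l t))|
  good : ∀ t ∈ σ.E, Good j p F (σ.E0 t) t ∧ t ∉ σ.E0 t ∧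
    ∀ u ∈ σ.E, u ∉ σ.E0 t → u ≠ t → ∀ k, u ∉ a t k

/-- extension of stages -/
def Ext (σ σ' : St X) : Prop :=
  σ.E ⊆ σ'.E ∧ (∀ t ∈ σ.E, σ'.eps t = σ.eps t) ∧ σ.g ≤ σ'.g ∧
    ∀ t ∈ σ.E, ∀ c ∈ σ.E, σ.eps t < |F c σ.g - F t σ.g| → σ.eps t < |F c σ'.g - F t σ'.g|

variable {j}

theorem upd (hj : Injective j) {g : X → ℝ} (hg : g ∈ H j) {t : X} {s : ℝ}
    (h1 : ∀ x, j x < j t → g x ≤ s) (h2 : 0 ≤ s) (h3 : s ≤ g t) : update g t s ∈ H j := by
  refine ⟨fun x y hxy => ?_, fun x => ?_⟩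
  · by_cases e1 : x = t <;> by_cases e2 : y = t
    · rw [e1, e2]
    · subst e1
      rw [update_self, update_of_ne e2]
      exact h3.trans (hg.1 _ _ hxy)
    · subst e2
      rw [update_self, update_of_ne e1]
      exact h1 x (lt_of_le_of_ne hxy (hj.ne e1))
    · rw [update_of_ne e1, update_of_ne e2]
      exact hg.1 _ _ hxy
  · by_cases e1 : x = t
    · subst e1
      rw [update_self]
      exact ⟨h2, h3.trans (hg.2 _).2⟩
    · rw [update_of_ne e1]
      exact hg.2 x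

/-- raise `g` on a half open interval -/
noncomputable def rs (j : X → ℝ) (g : X → ℝ) (t : X) (s : ℝ) (t' : X) : X → ℝ :=
  fun x => if j t' ≤ j x ∧ j x < j t then s else g x

theorem rs_le {g : X → ℝ} {t t' x : X} {s b : ℝ} (h1 : s ≤ b) (h2 : g x ≤ b) :
    rs j g t s t' x ≤ b := by
  unfold rs
  split_ifs <;> assumption

theorem rs_mem {g : X → ℝ} (hg : g ∈ H j) {t : X} {s : ℝ}
    (h1 : ∀ x, j x < j t → g x ≤ s) (h2 : 0 ≤ s) (h3 : s ≤ g t) (t' : X) :
    rs j g t s t' ∈ H j := by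
  refine ⟨fun x y hxy => ?_, fun x => ?_⟩
  · unfold rs
    split_ifs with e1 e2 e2
    · exact le_rfl
    · exact h3.trans (hg.1 _ _ (not_lt.1 fun h => e2 ⟨e1.1.trans hxy, h⟩))
    · exact h1 x (hxy.trans_lt e2.2)
    · exact hg.1 _ _ hxy
  · unfold rs
    split_ifs
    · exact ⟨h2, h3.trans (hg.2 _).2⟩
    · exact hg.2 x

theorem ev_lt {t : X} {b : ℝ} (hb : b < j t) : ∀ᶠ t' in comap j (𝓝[<] j t), b < j t' :=
  preimage_mem_comap (t := Ioi b) (nhdsWithin_le_nhds (Ioi_mem_nhds hb))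

theorem rs_ev (g : X → ℝ) (t : X) (s : ℝ) (x : X) :
    ∀ᶠ t' in comap j (𝓝[<] j t), rs j g t s t' x = g x := by
  by_cases h : j x < j t
  · filter_upwards [ev_lt h] with t' h'
    exact if_neg fun e => e.1.not_gt h'
  · exact Eventually.of_forall fun t' => if_neg fun e => h e.2

theorem rs_tend (g : X → ℝ) (t : X) (s : ℝ) :
    Tendsto (rs j g t s) (comap j (𝓝[<] j t)) (𝓝 g) :=
  tendsto_pi_nhds.2 fun x => tendsto_const_nhds.congr' ((rs_ev g t s x).mono fun _ h => h.symm)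

theorem rs_tend' (g : X → ℝ) (t : X) (s : ℝ) (u : X) (c : ℝ) :
    Tendsto (fun t' => update (rs j g t s t') u c) (comap j (𝓝[<] j t)) (𝓝 (update g u c)) :=
  ((continuous_id.update u continuous_const).tendsto g).comp (rs_tend g t s)

theorem data (hj : Injective j) {σ : St X} (h : Inv j p F a σ) {t : X} (ht : t ∈ σ.E) (k : ℕ) :
    ∃ (c : σ.E0 t → ℚ) (L : Finset (ℚ × ℚ × ℚ)), (∀ u : σ.E0 t, σ.g u = c u) ∧
      (∀ c ∈ L, j t ∉ Icc (c.1 : ℝ) c.2.1 ∧ ∀ x, (c.1 : ℝ) < j x → j x < c.2.1 → σ.g x = c.2.2) ∧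
      ∀ u ∈ a t k, u ∉ σ.E0 t → u ≠ t → ∃ c ∈ L, (c.1 : ℝ) < j u ∧ j u < c.2.1 := by
  choose c hc using h.rat
  have key : ∀ u, ∃ d : ℚ × ℚ × ℚ, u ∉ σ.E → ((d.1 : ℝ) < j u ∧ j u < d.2.1) ∧
      j t ∉ Icc (d.1 : ℝ) d.2.1 ∧ ∀ x, (d.1 : ℝ) < j x → j x < d.2.1 → σ.g x = d.2.2 := by
    intro u
    by_cases hu : u ∈ σ.E
    · exact ⟨0, fun h => absurd hu h⟩
    obtain ⟨η, h1, h2⟩ := h.lc u hu
    have h3 : 0 < |j t - j u| := abs_pos.2 (sub_ne_zero.2 (hj.ne fun e => hu (e ▸ ht)))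
    have h4 := lt_min h1 h3
    have h5 := min_le_left η |j t - j u|
    have h6 := min_le_right η |j t - j u|
    obtain ⟨q, a1, a2⟩ := exists_rat_btwn (show j u - min η |j t - j u| < j u by linarith)
    obtain ⟨q', a3, a4⟩ := exists_rat_btwn (show j u < j u + min η |j t - j u| by linarith)
    refine ⟨(q, q', c u), fun _ => ⟨⟨a2, a3⟩, fun e => ?_, fun x b1 b2 => ?_⟩⟩
    · have : |j t - j u| < |j t - j u| := abs_lt.2 ⟨by linarith [e.1], by linarith [e.2]⟩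
      exact lt_irrefl _ this
    · rw [h2 x (abs_lt.2 ⟨by linarith, by linarith⟩), hc]
  choose d hd using key
  refine ⟨fun u => c u, ((a t k).filter fun u => u ∉ σ.E).image d, fun u => hc u, ?_, ?_⟩
  · intro e he
    obtain ⟨u, hu, rfl⟩ := Finset.mem_image.1 he
    exact (hd u (Finset.mem_filter.1 hu).2).2
  · intro u h1 h2 h3
    have h4 : u ∉ σ.E := fun h4 => (h.good t ht).2.2 u h4 h2 h3 k h1
    exact ⟨d u, Finset.mem_image_of_mem _ (Finset.mem_filter.2 ⟨h1, h4⟩), (hd u h4).1⟩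

theorem step (hj : Injective j) (hF : ∀ t, ContinuousOn (F t) (H j))
    (ha : ∀ t k, ∀ h ∈ H j, ∀ h' ∈ H j, (∀ u ∈ a t k, h u = h' u) →
      |F t h - F t h'| < 1 / ((k : ℝ) + 1))
    {σ : St X} (h : Inv j p F a σ) {t : X} (ht : t ∈ σ.E) {W : Set P} (hW : W ∈ countableBasis P)
    (hp : p t ∈ W) : ∃ σ', Inv j p F a σ' ∧ Ext F σ σ' ∧
      ∃ c ∈ σ'.E, p c ∈ W ∧ σ.eps t < |F c σ'.g - F t σ'.g| := by
  obtain ⟨l1, l2, l3⟩ := h.le t ht
  have hu : ∀ s ∈ Icc (σ.l t) (σ.g t), update σ.g t s ∈ H j := fun s hs =>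
    upd hj h.mem (fun x hx => (l1 x hx).trans hs.1) (l2.trans hs.1) hs.2
  have hφ : ContinuousOn (fun s => F t (update σ.g t s)) (Icc (σ.l t) (σ.g t)) :=
    (hF t).comp (show Continuous fun s : ℝ => update σ.g t s from
      continuous_const.update t continuous_id).continuousOn hu
  obtain ⟨s, hs, s1, s2⟩ := pick l3 hφ (h.gap t ht).1 (by simpa using (h.gap t ht).2)
  simp only [update_eq_self] at s2
  have s3 : 0 < |F t (update σ.g t s) - F t (update σ.g t (σ.l t))| := abs_pos.2 (sub_ne_zero.2 s1)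
  obtain ⟨k, hk⟩ := exists_nat_one_div_lt (show 0 < min
    (|F t (update σ.g t s) - F t (update σ.g t (σ.l t))| / 6)
    ((|F t σ.g - F t (update σ.g t s)| - σ.eps t) / 4) from lt_min (by linarith) (by linarith))
  obtain ⟨k1, k2⟩ := lt_min_iff.1 hk
  have k0 : (0 : ℝ) < 1 / ((k : ℝ) + 1) := by positivity
  obtain ⟨c, L, d1, d2, d3⟩ := data p F a hj h ht k
  obtain ⟨η, hη, hl⟩ := h.left t ht
  have hS : ∀ y : ℚ, (y : ℝ) ∈ Icc (σ.l t) (σ.g t) → ∃ r e : ℚ, t ∈ S1 j F (σ.E0 t) (c, L, y, r, e) ∧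
      ∀ w : ℝ, |w - r| < e → |w - F t (update σ.g t y)| < 3 * (1 / ((k : ℝ) + 1)) := by
    intro y hy
    obtain ⟨r, r1, r2⟩ := exists_rat_btwn
      (show F t (update σ.g t y) < F t (update σ.g t y) + 1 / ((k : ℝ) + 1) by linarith)
    refine ⟨r, 2 * (1 / (k + 1)), fun f hf b1 b2 b3 => ?_, fun w hw => ?_⟩
    · have := ha t k f hf _ (hu y hy) fun u hu' => by
        by_cases e : u = t
        · rw [e, update_self]
          exact b3
        · rw [update_of_ne e]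
          by_cases e' : u ∈ σ.E0 t
          · exact (b1 ⟨u, e'⟩).trans (d1 ⟨u, e'⟩).symm
          · obtain ⟨d, hd, b4, b5⟩ := d3 u hu' e' e
            rw [b2 d hd u b4 b5, (d2 d hd).2 u b4 b5]
      push_cast
      rw [abs_lt] at this ⊢
      constructor <;> linarith [this.1, this.2]
    · push_cast at hw
      rw [abs_lt] at hw ⊢
      constructor <;> linarith [hw.1, hw.2]
  have hm : ∀ t', rs j σ.g t s t' ∈ H j :=
    rs_mem h.mem (fun x hx => (l1 x hx).trans hs.1) (l2.trans hs.1) hs.2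
  have hT : ∀ u, Tendsto (fun t' => F u (rs j σ.g t s t')) (comap j (𝓝[<] j t)) (𝓝 (F u σ.g)) :=
    fun u => (hF u _ h.mem).tendsto.comp
      (tendsto_nhdsWithin_iff.2 ⟨rs_tend _ _ _, Eventually.of_forall hm⟩)
  have hrt : ∀ t', rs j σ.g t s t' t = σ.g t := fun t' => if_neg fun e => lt_irrefl _ e.2
  have ev1 : ∀ᶠ t' in comap j (𝓝[<] j t), ∀ u ∈ σ.E, j u < j t → j u < j t' :=
    (Finset.eventually_all _).2 fun u _ => by
      by_cases e : j u < j t
      · exact (ev_lt e).mono fun _ h _ => h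
      · exact Eventually.of_forall fun _ h => absurd h e
  have hle : ∀ t', (∀ u ∈ σ.E, j u < j t → j u < j t') → ∀ u ∈ σ.E, u ≠ t →
      (∀ x, j x < j u → rs j σ.g t s t' x ≤ σ.l u) ∧ rs j σ.g t s t' u = σ.g u := by
    intro t' h1 u h2 h3
    refine ⟨fun x hx => ?_, if_neg fun e => e.1.not_gt (h1 u h2 e.2)⟩
    rcases (hj.ne h3).lt_or_gt with e | e
    · rw [rs, if_neg fun e' => e'.1.not_gt (hx.trans (h1 u h2 e))]
      exact (h.le u h2).1 x hx
    · exact rs_le (hs.2.trans ((h.le u h2).1 t e)) ((h.le u h2).1 x hx)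
  have ev2 : ∀ᶠ t' in comap j (𝓝[<] j t), ∀ u ∈ σ.E, u ≠ t → σ.eps u <
      |F u (rs j σ.g t s t') - F u (update (rs j σ.g t s t') u (σ.l u))| := by
    refine (Finset.eventually_all _).2 fun u hu' => ?_
    by_cases e : u = t
    · exact Eventually.of_forall fun _ h => absurd e h
    have := (hF u _ (upd hj h.mem (h.le u hu').1 (h.le u hu').2.1 (h.le u hu').2.2)).tendsto.comp
      (tendsto_nhdsWithin_iff.2 ⟨rs_tend' σ.g t s u (σ.l u), ev1.mono fun t' h1 =>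
        upd hj (hm t') (hle t' h1 u hu' e).1 (h.le u hu').2.1
          ((h.le u hu').2.2.trans_eq (hle t' h1 u hu' e).2.symm)⟩)
    exact (((hT u).sub this).abs.eventually (lt_mem_nhds (h.gap u hu').2)).mono fun _ h _ => h
  have hs' : ∀ t' x, j x < j t → rs j σ.g t s t' x ≤ s := fun t' x hx =>
    rs_le le_rfl ((l1 x hx).trans hs.1)
  have ev3 : ∀ᶠ t' in comap j (𝓝[<] j t), σ.eps t <
      |F t (rs j σ.g t s t') - F t (update (rs j σ.g t s t') t s)| := by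
    have := (hF t _ (hu s hs)).tendsto.comp
      (tendsto_nhdsWithin_iff.2 ⟨rs_tend' σ.g t s t s, Eventually.of_forall fun t' =>
        upd hj (hm t') (hs' t') (l2.trans hs.1) (hs.2.trans_eq (hrt t').symm)⟩)
    exact ((hT t).sub this).abs.eventually (lt_mem_nhds s2)
  have ev4 : ∀ᶠ t' in comap j (𝓝[<] j t), ∀ u ∈ σ.E, ∀ c ∈ σ.E, σ.eps u < |F c σ.g - F u σ.g| →
      σ.eps u < |F c (rs j σ.g t s t') - F u (rs j σ.g t s t')| := by
    refine (Finset.eventually_all _).2 fun u _ => (Finset.eventually_all _).2 fun c _ => ?_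
    by_cases e : σ.eps u < |F c σ.g - F u σ.g|
    · exact (((hT c).sub (hT u)).abs.eventually (lt_mem_nhds e)).mono fun _ h _ => h
    · exact Eventually.of_forall fun _ h => absurd h e
  have ev5 : ∀ᶠ t' in comap j (𝓝[<] j t), |F t (rs j σ.g t s t') - F t σ.g| < 1 / ((k : ℝ) + 1) :=
    (Metric.tendsto_nhds.1 (hT t)) _ k0
  have ev6 : ∀ᶠ t' in comap j (𝓝[<] j t), ∀ u ∈ σ.E0 t, rs j σ.g t s t' u = σ.g u ∧ u ≠ t' :=
    (Finset.eventually_all _).2 fun u hu' => (rs_ev σ.g t s u).and (by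
      rcases (hj.ne fun e : u = t => (h.good t ht).2.1 (e ▸ hu')).lt_or_gt with e | e
      · exact (ev_lt e).mono fun t' h e' => lt_irrefl _ (e' ▸ h)
      · exact (preimage_mem_comap (t := Iio (j t)) self_mem_nhdsWithin : _ ∈ _) |>
          fun h => mem_of_superset h fun t' h (e' : u = t') => e.not_gt (e' ▸ h))
  have ev7 : ∀ᶠ t' in comap j (𝓝[<] j t), ∀ d ∈ L, ∀ x, (d.1 : ℝ) < j x → j x < d.2.1 →
      ¬ (j t' ≤ j x ∧ j x ≤ j t) := by
    refine (Finset.eventually_all _).2 fun d hd => ?_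
    by_cases e : (d.2.1 : ℝ) < j t
    · exact (ev_lt e).mono fun t' h x _ h2 h3 => by linarith [h3.1]
    · exact Eventually.of_forall fun t' x h1 _ h3 =>
        (d2 d hd).1 ⟨by linarith [h3.2], not_lt.1 e⟩
  have ev8 := ev_lt (show j t - η < j t by linarith)
  obtain ⟨V, hV, hall⟩ := mem_comap.1
    (ev1.and (ev2.and (ev3.and (ev4.and (ev5.and (ev6.and (ev7.and ev8)))))))
  obtain ⟨b, hb, hV'⟩ := mem_nhdsLT_iff_exists_Ioo_subset.1 hV
  have hb' : b < j t := hb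
  obtain ⟨y0, hy0⟩ := h.ratl t ht
  obtain ⟨r1, e1, S1, R1⟩ := hS s hs
  obtain ⟨r0, e0, S0, R0⟩ := hS y0 (hy0 ▸ left_mem_Icc.2 l3)
  have hN : ({t | ¬ Good j p F σ.E t} ∪ (σ.E : Set X) ∪
      ⋃ u ∈ (σ.E : Set X), ⋃ k, (a u k : Set X)).Countable :=
    ((bad j p F hj _).union σ.E.countable_toSet).union (σ.E.countable_toSet.biUnion fun u _ =>
      countable_iUnion fun k => (a u k).countable_toSet)
  obtain ⟨t', ⟨⟨⟨T1, T0⟩, TW⟩, T2, T3⟩, hn⟩ := not_subset.1 fun e =>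
    (h.good t ht).1 _ _ W hW ⟨⟨S1, S0⟩, hp⟩ (j t - b) (by linarith) (hN.mono e)
  obtain ⟨f1, f2, f3, f4, f5, f6, f7, f8⟩ := hall (a := t') (hV' ⟨by linarith, T3⟩)
  simp only [mem_union, mem_ofPred, not_or, not_not, mem_iUnion, not_exists, Finset.mem_coe] at hn
  obtain ⟨⟨n1, n2⟩, n3⟩ := hn
  have n4 : t' ≠ t := fun e => n2 (e ▸ ht)
  have g1 : rs j σ.g t s t' t' = s := if_pos ⟨le_rfl, T3⟩
  have g2 : ∀ x, j x < j t' → rs j σ.g t s t' x = σ.g x := fun x hx =>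
    if_neg fun e => e.1.not_gt hx
  have g3 : ∀ x, j x < j t' → rs j σ.g t s t' x ≤ σ.l t := fun x hx =>
    (g2 x hx).trans_le (l1 x (hx.trans T3))
  have g4 : ∀ d ∈ L, ∀ x, (d.1 : ℝ) < j x → j x < d.2.1 → rs j σ.g t s t' x = d.2.2 :=
    fun d hd x b1 b2 => (if_neg fun e => f7 d hd x b1 b2 ⟨e.1, e.2.le⟩).trans
      ((d2 d hd).2 x b1 b2)
  have c1 := R1 _ (T1 _ (hm t') (fun u => (f6 u u.2).1.trans (d1 u)) g4 g1)
  have c0 := R0 _ (T0 _ (upd hj (hm t') g3 l2 (hs.1.trans_eq g1.symm))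
    (fun u => (update_of_ne (f6 u u.2).2 _ _).trans ((f6 u u.2).1.trans (d1 u)))
    (fun d hd x b1 b2 => (update_of_ne (fun e : x = t' => f7 d hd x b1 b2
      (by rw [e]; exact ⟨le_rfl, T3.le⟩)) _ _).trans (g4 d hd x b1 b2)) ((update_self _ _ _).trans hy0))
  rw [← hy0] at c0
  have c2 : 0 < |F t' (rs j σ.g t s t') - F t' (update (rs j σ.g t s t') t' (σ.l t))| := by
    refine abs_pos.2 (sub_ne_zero.2 fun e => ?_)
    rw [← e] at c0
    have := abs_sub_le (F t (update σ.g t s)) (F t' (rs j σ.g t s t')) (F t (update σ.g t (σ.l t)))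
    rw [abs_sub_comm] at c1
    linarith
  have hne : ∀ u ∈ σ.E, u ≠ t' := fun u hu e => n2 (e ▸ hu)
  refine ⟨⟨insert t' σ.E, rs j σ.g t s t', update (update σ.l t s) t' (σ.l t),
    update σ.eps t' (|F t' (rs j σ.g t s t') - F t' (update (rs j σ.g t s t') t' (σ.l t))| / 2),
    update σ.E0 t' σ.E⟩, ⟨Finset.insert_nonempty _ _, hm t', fun x => ?_, ?_, ?_, ?_, ?_, ?_, ?_⟩,
    ⟨Finset.subset_insert _ _, fun u hu => update_of_ne (hne u hu) _ _, fun x => ?_, f4⟩,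
    t', Finset.mem_insert_self _ _, TW, ?_⟩
  · by_cases e : j t' ≤ j x ∧ j x < j t
    · exact ⟨s, if_pos e⟩
    · obtain ⟨q, hq⟩ := h.rat x
      exact ⟨q, (if_neg e).trans hq⟩
  · simp only [Finset.forall_mem_insert, update_self]
    refine ⟨⟨y0, hy0⟩, fun u hu => ?_⟩
    rw [update_of_ne (hne u hu)]
    by_cases e : u = t
    · exact ⟨s, by rw [e, update_self]⟩
    · rw [update_of_ne e]
      exact h.ratl u hu
  · intro u hu
    simp only [Finset.mem_insert, not_or] at hu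
    obtain ⟨δ, a1, a2⟩ := h.lc u hu.2
    have a3 : 0 < |j u - j t| := abs_pos.2 (sub_ne_zero.2 (hj.ne fun e => hu.2 (e ▸ ht)))
    have a4 : 0 < |j u - j t'| := abs_pos.2 (sub_ne_zero.2 (hj.ne hu.1))
    refine ⟨min δ (min |j u - j t| |j u - j t'|), lt_min a1 (lt_min a3 a4), fun x hx => ?_⟩
    obtain ⟨b1, b2⟩ := lt_min_iff.1 hx
    obtain ⟨b2, b3⟩ := lt_min_iff.1 b2
    have : (j t' ≤ j x ∧ j x < j t) ↔ (j t' ≤ j u ∧ j u < j t) := by
      rw [abs_lt] at b2 b3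
      refine and_congr ?_ ?_
      · rcases abs_cases (j u - j t') with b | b <;> constructor <;> intro <;> linarith [b.1, b.2]
      · rcases abs_cases (j u - j t) with b | b <;> constructor <;> intro <;> linarith [b.1, b.2]
    simp only [rs, this, a2 x b1]
  · simp only [Finset.forall_mem_insert, update_self]
    refine ⟨⟨j t' - (j t - η), by linarith, fun x b1 b2 =>
      (g2 x b2).trans (hl x (by linarith) (b2.trans T3))⟩, fun u hu => ?_⟩
    rw [update_of_ne (hne u hu)]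
    by_cases e : u = t
    · subst e
      rw [update_self]
      exact ⟨j u - j t', by linarith, fun x b1 b2 => if_pos ⟨by linarith, b2⟩⟩
    · rw [update_of_ne e]
      obtain ⟨δ, a1, a2⟩ := h.left u hu
      rcases (hj.ne e).lt_or_gt with e' | e'
      · exact ⟨δ, a1, fun x b1 b2 => (g2 x (b2.trans (f1 u hu e'))).trans (a2 x b1 b2)⟩
      · refine ⟨min δ (j u - j t), lt_min a1 (by linarith), fun x b1 b2 => ?_⟩
        have b3 := min_le_left δ (j u - j t)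
        have b4 := min_le_right δ (j u - j t)
        exact (if_neg fun e => by linarith [e.2]).trans (a2 x (by linarith) b2)
  · simp only [Finset.forall_mem_insert, update_self]
    refine ⟨⟨g3, l2, hs.1.trans_eq g1.symm⟩, fun u hu => ?_⟩
    rw [update_of_ne (hne u hu)]
    by_cases e : u = t
    · subst e
      rw [update_self]
      exact ⟨hs' t', l2.trans hs.1, hs.2.trans_eq (hrt t').symm⟩
    · rw [update_of_ne e]
      exact ⟨(hle t' f1 u hu e).1, (h.le u hu).2.1,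
        (h.le u hu).2.2.trans_eq (hle t' f1 u hu e).2.symm⟩
  · simp only [Finset.forall_mem_insert, update_self]
    refine ⟨⟨half_pos c2, half_lt_self c2⟩, fun u hu => ?_⟩
    rw [update_of_ne (hne u hu), update_of_ne (hne u hu)]
    refine ⟨(h.gap u hu).1, ?_⟩
    by_cases e : u = t
    · subst e
      rw [update_self]
      exact f3
    · rw [update_of_ne e]
      exact f2 u hu e
  · simp only [Finset.forall_mem_insert, update_self]
    refine ⟨⟨n1, n2, fun _ h => absurd rfl h, fun u h1 h2 => absurd h1 h2⟩, fun u hu => ?_⟩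
    rw [update_of_ne (hne u hu)]
    exact ⟨(h.good u hu).1, (h.good u hu).2.1, fun _ _ k => n3 u hu k, (h.good u hu).2.2⟩
  · show σ.g x ≤ rs j σ.g t s t' x
    unfold rs
    split_ifs with e
    · exact (l1 x e.2).trans hs.1
    · exact le_rfl
  · show σ.eps t < |F t' (rs j σ.g t s t') - F t (rs j σ.g t s t')|
    have a1 := abs_sub_le (F t σ.g) (F t (rs j σ.g t s t')) (F t (update σ.g t s))
    have a2 := abs_sub_le (F t (rs j σ.g t s t')) (F t' (rs j σ.g t s t')) (F t (update σ.g t s))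
    rw [abs_sub_comm] at f5
    rw [abs_sub_comm]
    linarith

theorem main [Uncountable X] (hj : Injective j) (G : P → (X → ℝ) → ℝ)
    (hG : ∀ q, ContinuousOn (G q) (H j))
    (hs : ∀ h ∈ H j, ∀ h' ∈ H j, (∀ q, G q h = G q h') → h = h') :
    ∃ h ∈ H j, ∃ A : Set P, A.Nonempty ∧ ∀ q ∈ A, ¬ ContinuousWithinAt (fun q => G q h) A q := by
  let st : X → X → ℝ := fun t x => if j x < j t then 0 else 1
  have m1 : ∀ t, st t ∈ H j := fun t => ⟨fun x y hxy => by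
    simp only [st]
    split_ifs with e1 e2 e2
    exacts [le_rfl, zero_le_one, absurd (hxy.trans_lt e2) e1, le_rfl], fun x => by
    simp only [st]
    split_ifs <;> simp⟩
  have m3 : ∀ t, st t t = 1 := fun t => if_neg (lt_irrefl _)
  have m4 : ∀ t x, j x < j t → st t x ≤ 0 := fun t x hx => (if_pos hx).le
  have m2 : ∀ t, update (st t) t 0 ∈ H j := fun t =>
    upd hj (m1 t) (m4 t) le_rfl (by rw [m3]; exact zero_le_one)
  have hp : ∀ t, ∃ q, G q (st t) ≠ G q (update (st t) t 0) := fun t => by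
    by_contra hn
    push Not at hn
    have := congrFun (hs _ (m1 t) _ (m2 t) hn) t
    rw [m3, update_self] at this
    exact one_ne_zero this
  choose p hp using hp
  let F : X → (X → ℝ) → ℝ := fun t => G (p t)
  choose a ha using fun (t : X) (k : ℕ) => supp (H_compact j) (hG (p t))
    (show (0 : ℝ) < 1 / ((k : ℝ) + 1) by positivity)
  obtain ⟨t0, ht0⟩ : ∃ t, Good j p F ∅ t := by
    by_contra hn
    push Not at hn
    exact not_countable_univ ((bad j p F hj ∅).mono fun t _ => hn t)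
  have p0 : 0 < |F t0 (st t0) - F t0 (update (st t0) t0 0)| := abs_pos.2 (sub_ne_zero.2 (hp t0))
  have I0 : Inv j p F a ⟨{t0}, st t0, fun _ => 0,
      fun _ => |F t0 (st t0) - F t0 (update (st t0) t0 0)| / 2, fun _ => ∅⟩ := by
    refine ⟨Finset.singleton_nonempty _, m1 _, fun x => ?_, fun _ _ => ⟨0, by simp⟩, ?_, ?_, ?_,
      ?_, ?_⟩
    · by_cases e : j x < j t0
      · exact ⟨0, (if_pos e).trans (by simp)⟩
      · exact ⟨1, (if_neg e).trans (by simp)⟩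
    · intro u hu
      refine ⟨|j u - j t0|, abs_pos.2 (sub_ne_zero.2 (hj.ne (by simpa using hu))), fun x hx => ?_⟩
      have : j x < j t0 ↔ j u < j t0 := by
        rw [abs_lt] at hx
        rcases abs_cases (j u - j t0) with b | b <;> constructor <;> intro <;>
          linarith [b.1, b.2, hx.1, hx.2]
      simp only [st, this]
    all_goals simp only [Finset.mem_singleton, forall_eq]
    · exact ⟨1, one_pos, fun x _ hx => if_pos hx⟩
    · exact ⟨m4 _, le_rfl, by rw [m3]; exact zero_le_one⟩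
    · exact ⟨half_pos p0, half_lt_self p0⟩
    · exact ⟨ht0, Finset.notMem_empty _, fun _ h => absurd rfl h⟩
  obtain ⟨σ, τ, -, -, hb⟩ := Pool.Agent.H.MP_1e45a6.book
    (fun (σ : {σ // Inv j p F a σ}) (τ : X × Set P) σ' f => Ext F σ.1 σ'.1 ∧
      (τ.1 ∈ σ.1.E → τ.2 ∈ countableBasis P → p τ.1 ∈ τ.2 → ∃ c ∈ σ'.1.E, p c ∈ τ.2 ∧
        σ.1.eps τ.1 < |F c σ'.1.g - F τ.1 σ'.1.g|) ∧
      ∀ t ∈ σ.1.E, ∀ W ∈ countableBasis P, ∃ k, f k = (t, W)) (by
      intro σ τ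
      obtain ⟨f, hf⟩ := (countable_iff_exists_subset_range (α := X × Set P)).1
        (σ.1.E.countable_toSet.prod (countable_countableBasis P))
      have hf' : ∀ t ∈ σ.1.E, ∀ W ∈ countableBasis P, ∃ k, f k = (t, W) :=
        fun t ht W hW => hf (mk_mem_prod ht hW)
      by_cases e : τ.1 ∈ σ.1.E ∧ τ.2 ∈ countableBasis P ∧ p τ.1 ∈ τ.2
      · obtain ⟨σ', a1, a2, a3⟩ := step p F a hj (fun t => hG (p t)) ha σ.2 e.1 e.2.1 e.2.2
        exact ⟨⟨σ', a1⟩, f, a2, fun _ _ _ => a3, hf'⟩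
      · exact ⟨σ, f, ⟨Finset.Subset.refl _, fun _ _ => rfl, le_rfl, fun _ _ _ _ h => h⟩,
          fun a1 a2 a3 => absurd ⟨a1, a2, a3⟩ e, hf'⟩) ⟨_, I0⟩ (t0, univ)
  have hE : ∀ n m, n ≤ m → Ext F (σ n).1 (σ m).1 := by
    intro n m hnm
    induction hnm with
    | refl => exact ⟨Finset.Subset.refl _, fun _ _ => rfl, le_rfl, fun _ _ _ _ h => h⟩
    | step _ ih =>
      obtain ⟨a1, a2, a3, a4⟩ := ih
      obtain ⟨b1, b2, b3, b4⟩ := (hb _).1
      refine ⟨a1.trans b1, fun t ht => (b2 t (a1 ht)).trans (a2 t ht), a3.trans b3,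
        fun t ht c hc h => ?_⟩
      rw [← a2 t ht]
      exact b4 t (a1 ht) c (a1 hc) (by rw [a2 t ht]; exact a4 t ht c hc h)
  have hT : Tendsto (fun n => (σ n).1.g) atTop (𝓝 fun x => ⨆ n, (σ n).1.g x) :=
    tendsto_pi_nhds.2 fun x => tendsto_atTop_ciSup (fun n m h => (hE n m h).2.2.1 x)
      ⟨1, by rintro _ ⟨n, rfl⟩; exact ((σ n).2.mem.2 x).2⟩
  have hH := (H_closed j).mem_of_tendsto hT (Eventually.of_forall fun n => (σ n).2.mem)
  have hT' : ∀ t, Tendsto (fun n => F t (σ n).1.g) atTop (𝓝 (F t fun x => ⨆ n, (σ n).1.g x)) :=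
    fun t => (hG (p t) _ hH).tendsto.comp
      (tendsto_nhdsWithin_iff.2 ⟨hT, Eventually.of_forall fun n => (σ n).2.mem⟩)
  refine ⟨_, hH, p '' ⋃ n, ((σ n).1.E : Set X), ?_, ?_⟩
  · obtain ⟨t, ht⟩ := (σ 0).2.ne
    exact ⟨_, t, mem_iUnion.2 ⟨0, ht⟩, rfl⟩
  · rintro _ ⟨t, ht, rfl⟩ hc
    obtain ⟨n, hn⟩ := mem_iUnion.1 ht
    obtain ⟨O, o1, o2, o3⟩ := mem_nhdsWithin.1
      (Metric.tendsto_nhds.1 hc _ ((σ n).2.gap t hn).1)
    obtain ⟨W, w1, w2, w3⟩ := (isBasis_countableBasis P).exists_subset_of_mem_open o2 o1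
    obtain ⟨k, hk⟩ := (hb n).2.2 t hn W w1
    have hle : n ≤ Nat.pair n k + 1 := (Nat.left_le_pair n k).trans (Nat.le_succ _)
    have h1 := (hb (Nat.pair n k + 1)).2.1
    simp only at hk
    rw [hk] at h1
    obtain ⟨c, c1, c2, c3⟩ := h1 ((hE _ _ hle).1 hn) w1 w2
    have c4 : |F c _ - F t _| < _ := o3 ⟨w3 c2, c, mem_iUnion.2 ⟨_, c1⟩, rfl⟩
    refine c4.not_ge (ge_of_tendsto ((hT' c).sub (hT' t)).abs ?_)
    filter_upwards [eventually_ge_atTop (Nat.pair n k + 1 + 1)] with m hm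
    have hle' := hle.trans (Nat.le_succ _)
    rw [← (hE _ _ hle').2.1 t hn]
    refine ((hE _ _ hm).2.2.2 t ((hE _ _ hle').1 hn) c c1 ?_).le
    rw [(hE _ _ hle').2.1 t hn, ← (hE _ _ hle).2.1 t hn]
    exact c3

end Pool.Agent.H.MP_6d476a
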