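import Pool.Agent.H.MP_6d476a.B

namespace Pool.Agent.H.MP_6d476a

open Set Filter Topology Function Classical

instance : Uncountable (ℕ → ℕ) := Cardinal.aleph0_lt_mk_iff.1 (by
  simpa using Cardinal.aleph0_lt_continuum)

theorem baire1 {h : (ℕ → ℕ) → ℝ} (hc : {x | ¬ ContinuousAt h x}.Countable) :
    ∃ u : ℕ → (ℕ → ℕ) → ℝ, (∀ n, Continuous (u n)) ∧
      ∀ x, Tendsto (fun n => u n x) atTop (𝓝 (h x)) := by
  obtain ⟨d, hd⟩ := countable_iff_exists_subset_range.1 hc
  let Y : ∀ n, (Fin n → ℕ) → ℕ → ℕ := fun n s =>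
    if e : ∃ i, ∀ m : Fin n, d i m = s m then d (Nat.find e)
    else fun m => if e : m < n then s ⟨m, e⟩ else 0
  have hY : ∀ n (x : ℕ → ℕ) m, m < n → Y n (fun m => x m) m = x m := by
    intro n x m hm
    simp only [Y]
    split_ifs with e
    · exact Nat.find_spec e ⟨m, hm⟩
    · simp [hm]
  refine ⟨fun n x => h (Y n fun m => x m), fun n => ?_, fun x => ?_⟩
  · exact (continuous_of_discreteTopology (f := fun s => h (Y n s))).comp
      (continuous_pi fun m => continuous_apply _)
  by_cases hx : ContinuousAt h x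
  · refine hx.tendsto.comp (tendsto_pi_nhds.2 fun m => tendsto_const_nhds.congr' ?_)
    filter_upwards [eventually_gt_atTop m] with n hn
    exact (hY n x m hn).symm
  · have e : ∃ i, d i = x := hd hx
    refine tendsto_const_nhds.congr' ?_
    have : ∀ᶠ n in atTop, ∀ i ∈ Finset.range (Nat.find e), ∃ m < n, d i m ≠ x m :=
      (Finset.eventually_all _).2 fun i hi => by
        obtain ⟨m, hm⟩ := Function.ne_iff.1 (Nat.find_min e (Finset.mem_range.1 hi))
        filter_upwards [eventually_gt_atTop m] with n hn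
        exact ⟨m, hn, hm⟩
    filter_upwards [this] with n hn
    have e' : ∃ i, ∀ m : Fin n, d i m = x m := ⟨Nat.find e, fun m => by rw [Nat.find_spec e]⟩
    have : Nat.find e' = Nat.find e := by
      rw [Nat.find_eq_iff]
      refine ⟨fun m => by rw [Nat.find_spec e], fun i hi h1 => ?_⟩
      obtain ⟨m, a1, a2⟩ := hn i (Finset.mem_range.2 hi)
      exact a2 (h1 ⟨m, a1⟩)
    simp only [Y, dif_pos e', this, Nat.find_spec e]

theorem disc_cnt {X : Type} [TopologicalSpace X] {j : X → ℝ} (hj : Injective j)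
    (hc : Continuous j) {h : X → ℝ} (hh : h ∈ H j) : {x | ¬ ContinuousAt h x}.Countable := by
  have h1 : MonotoneOn (extend j h 0) (range j) := by
    rintro _ ⟨x, rfl⟩ _ ⟨y, rfl⟩ hxy
    rw [hj.extend_apply, hj.extend_apply]
    exact hh.1 x y hxy
  obtain ⟨g, g1, g2⟩ := h1.exists_monotone_extension
    ⟨0, by rintro _ ⟨_, ⟨x, rfl⟩, rfl⟩; rw [hj.extend_apply]; exact (hh.2 x).1⟩
    ⟨1, by rintro _ ⟨_, ⟨x, rfl⟩, rfl⟩; rw [hj.extend_apply]; exact (hh.2 x).2⟩
  have e : h = g ∘ j := funext fun x => by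
    rw [comp_apply, ← g2 (mem_range_self x), hj.extend_apply]
  refine (g1.countable_not_continuousAt.preimage hj).mono ?_
  intro x hx h2
  apply hx
  rw [e]
  exact h2.comp hc.continuousAt

theorem exj : ∃ j : (ℕ → ℕ) → ℝ, Injective j ∧ Continuous j := by
  refine ⟨fun x => cantorSetHomeomorphNatToBool.symm fun n =>
    decide (x n.unpair.1 = n.unpair.2), fun x y hxy => funext fun n => ?_, ?_⟩
  · have := congrFun (cantorSetHomeomorphNatToBool.symm.injective (Subtype.ext hxy))
      (Nat.pair n (x n))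
    simpa [eq_comm] using this
  · refine continuous_subtype_val.comp (cantorSetHomeomorphNatToBool.symm.continuous.comp
      (continuous_pi fun n => ?_))
    exact (continuous_of_discreteTopology (f := fun m : ℕ => decide (m = n.unpair.2))).comp
      (continuous_apply _)

theorem noemb {X : Type} [Uncountable X] {j : X → ℝ} (hj : Injective j)
    (e : H j → (ℕ → ℕ) → ℝ) (hc : Continuous e) (hi : Injective e) :
    ∃ h, ∃ A : Set (ℕ → ℕ), A.Nonempty ∧ ∀ q ∈ A, ¬ ContinuousWithinAt (e h) A q := by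
  obtain ⟨h, hh, A, h1, h2⟩ := main hj
    (fun (q : ℕ → ℕ) h => if hh : h ∈ H j then e ⟨h, hh⟩ q else 0) (fun q => by
      rw [continuousOn_iff_continuous_domRestrict]
      convert (continuous_apply q).comp hc using 1
      funext h
      exact dif_pos h.2) (fun h hh h' hh' H => by
      simp only [dif_pos hh, dif_pos hh'] at H
      exact congrArg Subtype.val (hi (funext H)))
  simp only [dif_pos hh] at h2
  exact ⟨⟨h, hh⟩, A, h1, h2⟩

/-- the positive part of the unit ball of the summable families -/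
def B1 : Set ((ℕ → ℕ) → ℝ) := {x | (∀ t, 0 ≤ x t) ∧ ∀ s : Finset (ℕ → ℕ), ∑ t ∈ s, x t ≤ 1}

theorem B1_compact : IsCompact B1 := by
  refine (isCompact_univ_pi fun _ => isCompact_Icc (a := (0 : ℝ)) (b := 1)).of_isClosed_subset
    ?_ fun x hx t _ => ⟨hx.1 t, by simpa using hx.2 {t}⟩
  simp only [B1, ofPred_and, ofPred_forall]
  exact (isClosed_iInter fun t => isClosed_le continuous_const (continuous_apply t)).inter
    (isClosed_iInter fun s => isClosed_le (by fun_prop) continuous_const)

theorem B1_convex : Convex ℝ B1 := by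
  intro x hx y hy a b ha hb hab
  refine ⟨fun t => add_nonneg (mul_nonneg ha (hx.1 t)) (mul_nonneg hb (hy.1 t)), fun s => ?_⟩
  simp only [Pi.add_apply, Pi.smul_apply, smul_eq_mul, Finset.sum_add_distrib, ← Finset.mul_sum]
  nlinarith [hx.2 s, hy.2 s]

theorem B1_not : ¬ TopologicalSpace.MetrizableSpace B1 := by
  intro h
  have : CompactSpace B1 := isCompact_iff_compactSpace.1 B1_compact
  have m : ∀ t : ℕ → ℕ, Pi.single t (1 : ℝ) ∈ B1 := fun t =>
    ⟨fun u => by rw [Pi.single_apply]; split_ifs <;> simp, fun s => by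
      rw [Finset.sum_pi_single']
      split_ifs <;> simp⟩
  have : Countable (ℕ → ℕ) := Pairwise.countable_of_isOpen_disjoint
    (s := fun t => {x : B1 | 1 / 2 < x.1 t}) (fun t t' ht => disjoint_left.2 fun x h1 h2 => by
      have := x.2.2 {t, t'}
      rw [Finset.sum_pair ht] at this
      have h3 : 1 / 2 < x.1 t := h1
      have h4 : 1 / 2 < x.1 t' := h2
      linarith) (fun t => isOpen_lt continuous_const
        ((continuous_apply t).comp continuous_subtype_val))
    fun t => ⟨⟨_, m t⟩, by simp; norm_num⟩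
  exact not_countable this

/-- the embedding -/
noncomputable def em (x : (ℕ → ℕ) → ℝ) (q : ℕ → ℕ) : ℝ :=
  max (x (fun i => q (i + 1)) - 1 / ((q 0 : ℝ) + 1)) 0

theorem em_cont : Continuous em := by
  unfold em
  fun_prop

theorem em_inj : InjOn em B1 := by
  intro x hx y hy h
  funext t
  have h1 : ∀ z : (ℕ → ℕ) → ℝ, 0 ≤ z t →
      Tendsto (fun n : ℕ => em z fun i => Nat.casesOn i n t) atTop (𝓝 (z t)) := by
    intro z hz
    have := ((tendsto_const_nhds (x := z t)).sub
      (tendsto_one_div_add_atTop_nhds_zero_nat (𝕜 := ℝ))).max (tendsto_const_nhds (x := 0))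
    rw [sub_zero, max_eq_left hz] at this
    exact this
  exact tendsto_nhds_unique (h1 x (hx.1 t)) (h ▸ h1 y (hy.1 t))

theorem em_sc {x : (ℕ → ℕ) → ℝ} (hx : x ∈ B1) (A : Set (ℕ → ℕ)) (hA : A.Nonempty) :
    ∃ a ∈ A, ContinuousWithinAt (em x) A a := by
  obtain ⟨b, hb⟩ := hA
  have hO : IsOpen {q : ℕ → ℕ | q 0 = b 0} :=
    (isOpen_discrete {b 0}).preimage (continuous_apply (A := fun _ => ℕ) 0)
  have hF : {q : ℕ → ℕ | q 0 = b 0 ∧ em x q ≠ 0}.Finite := by
    by_contra hn
    obtain ⟨s, h1, h2⟩ := (not_finite.1 hn).exists_subset_card_eq (b 0 + 1)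
    have h3 := hx.2 (s.image fun q i => q (i + 1))
    rw [Finset.sum_image fun q hq q' hq' e => funext fun i =>
      Nat.casesOn i ((h1 hq).1.trans (h1 hq').1.symm) fun i => congrFun e i] at h3
    have h4 : ∑ q ∈ s, 1 / ((b 0 : ℝ) + 1) < ∑ q ∈ s, x fun i => q (i + 1) :=
      Finset.sum_lt_sum_of_nonempty (Finset.card_pos.1 (by omega)) fun q hq => by
        by_contra h5
        refine (h1 hq).2 (max_eq_right ?_)
        rw [(h1 hq).1]
        linarith
    rw [Finset.sum_const, h2, nsmul_eq_mul] at h4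
    push_cast at h4
    rw [mul_one_div_cancel (by positivity)] at h4
    linarith
  by_cases h : ∃ a ∈ A, a 0 = b 0 ∧ em x a = 0
  · obtain ⟨a, h1, h2, h3⟩ := h
    refine ⟨a, h1, ContinuousAt.continuousWithinAt ?_⟩
    refine (continuousAt_const (y := (0 : ℝ))).congr ?_
    filter_upwards [hO.mem_nhds h2, hF.isClosed.isOpen_compl.mem_nhds fun e => e.2 h3] with q a1 a2
    by_contra e
    exact a2 ⟨a1, fun e' => e e'.symm⟩
  · push Not at h
    refine ⟨b, hb, (continuousWithinAt_const (b := em x b)).congr_of_eventuallyEq ?_ rfl⟩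
    filter_upwards [self_mem_nhdsWithin, nhdsWithin_le_nhds (hO.mem_nhds rfl), nhdsWithin_le_nhds
      ((hF.subset (sdiff_subset (t := {b}))).isClosed.isOpen_compl.mem_nhds fun e => e.2 rfl)]
      with q a1 a2 a3
    by_contra e
    exact a3 ⟨⟨a2, h q a1 a2⟩, fun e' => e (by rw [show q = b from e'])⟩

end Pool.Agent.H.MP_6d476a
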